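import Pool.Agent.H34.TM.Orbit

/-!
The Prouhet–Thue–Morse constant and its approximations by `M j / F j`.
-/

set_option autoImplicit false

namespace Pool.Agent.H34.TM

open Finset

/-- the Prouhet–Thue–Morse sequence: the parity of the number of ones in the binary expansion -/
def tm (k : ℕ) : ℕ := (Nat.digits 2 k).sum % 2

/-- the Prouhet–Thue–Morse constant `0.412454…` -/
noncomputable def tau : ℝ := ∑' k : ℕ, (tm k : ℝ) / 2 ^ (k + 1)

lemma digits_sum (n : ℕ) : (Nat.digits 2 n).sum = n % 2 + (Nat.digits 2 (n / 2)).sum := by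
  rcases Nat.eq_zero_or_pos n with h | h
  · subst h; simp
  · rw [Nat.digits_def' (by norm_num) h]
    simp

lemma digits_sum_add (j k : ℕ) (hk : k < 2 ^ j) :
    (Nat.digits 2 (2 ^ j + k)).sum = (Nat.digits 2 k).sum + 1 := by
  induction j generalizing k with
  | zero =>
    have : k = 0 := by simpa using hk
    subst this
    simp
  | succ j ih =>
    have h1 : (2 ^ (j + 1) + k) % 2 = k % 2 := by rw [pow_succ]; omega
    have h2 : (2 ^ (j + 1) + k) / 2 = 2 ^ j + k / 2 := by rw [pow_succ]; omega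
    have h3 : k / 2 < 2 ^ j := by rw [pow_succ] at hk; omega
    rw [digits_sum, h1, h2, ih _ h3, digits_sum k]
    omega

lemma tm_add (j k : ℕ) (hk : k < 2 ^ j) : (tm (2 ^ j + k) : ℝ) = 1 - tm k := by
  have h : tm (2 ^ j + k) + tm k = 1 := by
    unfold tm
    rw [digits_sum_add j k hk]
    omega
  have : ((tm (2 ^ j + k) + tm k : ℕ) : ℝ) = 1 := by rw [h]; simp
  push_cast at this
  linarith

lemma tm_le (k : ℕ) : (tm k : ℝ) ≤ 1 := by
  have : tm k ≤ 1 := by unfold tm; omega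
  exact_mod_cast this

lemma tm_nonneg (k : ℕ) : (0 : ℝ) ≤ tm k := by positivity

lemma geom (n : ℕ) : ∑ k ∈ range n, (1 : ℝ) / 2 ^ (k + 1) = 1 - 1 / 2 ^ n := by
  induction n with
  | zero => simp
  | succ n ih =>
    rw [sum_range_succ, ih, pow_succ]
    field_simp
    ring

/-- the partial sums of the Thue–Morse constant -/
lemma partial_sum (j : ℕ) :
    ∑ k ∈ range (2 ^ j), (tm k : ℝ) / 2 ^ (k + 1) = (M j - 1) / 2 ^ 2 ^ j := by
  induction j with
  | zero => simp [tm, M]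
  | succ j ih =>
    have e : 2 ^ (j + 1) = 2 ^ j + 2 ^ j := by rw [pow_succ]; ring
    rw [e, sum_range_add, ih]
    have h1 : ∑ k ∈ range (2 ^ j), (tm (2 ^ j + k) : ℝ) / 2 ^ (2 ^ j + k + 1) =
        (1 / 2 ^ 2 ^ j) * ((1 - 1 / 2 ^ 2 ^ j) - (M j - 1) / 2 ^ 2 ^ j) := by
      rw [← ih, ← geom, ← sum_sub_distrib, mul_sum]
      apply sum_congr rfl
      intro k hk
      rw [tm_add j k (mem_range.1 hk)]
      rw [show 2 ^ j + k + 1 = 2 ^ j + (k + 1) by ring, pow_add]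
      field_simp
    rw [h1, pow_add, M_succ_real]
    field_simp
    ring

lemma summable_tm : Summable (fun k : ℕ => (tm k : ℝ) / 2 ^ (k + 1)) := by
  have h : Summable (fun k : ℕ => (1 / 2 : ℝ) * (1 / 2) ^ k) :=
    (summable_geometric_of_lt_one (by norm_num) (by norm_num)).mul_left _
  refine Summable.of_nonneg_of_le (fun k => by have := tm_nonneg k; positivity) (fun k => ?_) h
  rw [pow_succ, one_div_pow, div_le_iff₀ (by positivity)]
  have := tm_le k
  have e : (1 / 2 : ℝ) * (1 / 2 ^ k) * (2 ^ k * 2) = 1 := by field_simp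
  rw [e]
  exact this

lemma tau_eq (n : ℕ) :
    tau = ∑ k ∈ range n, (tm k : ℝ) / 2 ^ (k + 1) +
      ∑' k : ℕ, (tm (k + n) : ℝ) / 2 ^ (k + n + 1) := by
  rw [tau]
  exact (summable_tm.sum_add_tsum_nat_add n).symm

lemma tail_nonneg (n : ℕ) : 0 ≤ ∑' k : ℕ, (tm (k + n) : ℝ) / 2 ^ (k + n + 1) :=
  tsum_nonneg (fun k => by have := tm_nonneg (k + n); positivity)

lemma tail_le (n : ℕ) : ∑' k : ℕ, (tm (k + n) : ℝ) / 2 ^ (k + n + 1) ≤ 1 / 2 ^ n := by
  have h0 : Summable (fun k : ℕ => (1 / 2 : ℝ) ^ k) :=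
    summable_geometric_of_lt_one (by norm_num) (by norm_num)
  have hs : Summable (fun k : ℕ => (tm (k + n) : ℝ) / 2 ^ (k + n + 1)) :=
    (summable_nat_add_iff (f := fun k : ℕ => (tm k : ℝ) / 2 ^ (k + 1)) n).2 summable_tm
  have hle : ∀ k : ℕ, (tm (k + n) : ℝ) / 2 ^ (k + n + 1) ≤ (1 / 2 ^ (n + 1)) * (1 / 2 : ℝ) ^ k := by
    intro k
    rw [div_le_iff₀ (by positivity)]
    have e : (1 / 2 ^ (n + 1)) * (1 / 2 : ℝ) ^ k * 2 ^ (k + n + 1) = 1 := by
      rw [one_div_pow, show k + n + 1 = (n + 1) + k by ring, pow_add (2 : ℝ) (n + 1) k]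
      field_simp
    rw [e]
    exact tm_le _
  have h := hs.tsum_le_tsum hle (h0.mul_left _)
  rw [tsum_mul_left, tsum_geometric_of_lt_one (by norm_num) (by norm_num)] at h
  have e : (1 / 2 ^ (n + 1)) * (1 - 1 / 2 : ℝ)⁻¹ = 1 / 2 ^ n := by
    rw [pow_succ]
    field_simp
    norm_num
  rw [e] at h
  exact h

lemma le_tau (j : ℕ) : ((M j : ℝ) - 1) / 2 ^ 2 ^ j ≤ tau := by
  rw [tau_eq (2 ^ j), partial_sum]
  have := tail_nonneg (2 ^ j)
  linarith

lemma tau_le (j : ℕ) : tau ≤ (M j : ℝ) / 2 ^ 2 ^ j := by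
  rw [tau_eq (2 ^ j), partial_sum]
  have := tail_le (2 ^ j)
  have e2 : (M j : ℝ) / 2 ^ 2 ^ j = (M j - 1) / 2 ^ 2 ^ j + 1 / 2 ^ 2 ^ j := by
    rw [← add_div]; ring
  rw [e2]
  linarith

/-- rational approximations below `tau` -/
lemma exists_level (p q : ℕ) (hp : 0 < p) (h : (q : ℝ) / p < tau) :
    ∃ J : ℕ, q * F J ≤ p * M J := by
  have hp' : (0 : ℝ) < p := by exact_mod_cast hp
  obtain ⟨J, hJ⟩ := pow_unbounded_of_one_lt (((q : ℝ) / p) / (tau - q / p))
    (show (1 : ℝ) < 2 by norm_num)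
  refine ⟨J, ?_⟩
  have h1 : (2 : ℝ) ^ J ≤ 2 ^ 2 ^ J := by
    apply pow_le_pow_right₀ (by norm_num)
    exact Nat.lt_two_pow_self.le
  have h2 : ((q : ℝ) / p) < 2 ^ 2 ^ J * (tau - q / p) := by
    rw [div_lt_iff₀ (by linarith)] at hJ
    have : (2 : ℝ) ^ J * (tau - q / p) ≤ 2 ^ 2 ^ J * (tau - q / p) :=
      mul_le_mul_of_nonneg_right h1 (by linarith)
    linarith
  have h3 := tau_le J
  rw [le_div_iff₀ (by positivity)] at h3
  have h4 : ((q : ℝ) / p) * (2 ^ 2 ^ J + 1) ≤ M J := by nlinarith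
  have h5 : (q : ℝ) * F J ≤ p * M J := by
    rw [F_real]
    rw [div_mul_eq_mul_div, div_le_iff₀ hp'] at h4
    linarith
  exact_mod_cast h5

lemma tau_bounds : (0.41244 : ℝ) < tau ∧ tau < 0.41247 := by
  have h1 := le_tau 4
  have h2 := tau_le 4
  have e : (M 4 : ℝ) = 27031 := by
    simp [M]
  rw [e] at h1 h2
  norm_num at h1 h2
  constructor
  · refine lt_of_lt_of_le ?_ h1
    norm_num
  · refine lt_of_le_of_lt h2 ?_
    norm_num

end Pool.Agent.H34.TM
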