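import Mathlib

/-!
The orbits of the doubling map modulo the Fermat numbers.

`F j = 2 ^ (2 ^ j) + 1`, `M 0 = 1`, `M (j + 1) = (2 ^ (2 ^ j) - 1) * M j + 1`.  For every `k` that
is not divisible by `F J` some `2 ^ i * k` with `i < 2 ^ J` has distance at least `M J` from the
multiples of `F J`.
-/

set_option autoImplicit false

namespace Pool.Agent.H34.TM

/-- the Fermat numbers -/
def F (j : ℕ) : ℕ := 2 ^ 2 ^ j + 1

/-- the numerators: `1, 2, 7, 106, …` -/
def M : ℕ → ℕ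
  | 0 => 1
  | j + 1 => (2 ^ 2 ^ j - 1) * M j + 1

lemma two_pow_ge (j : ℕ) : 2 ≤ 2 ^ 2 ^ j := by
  calc 2 = 2 ^ 1 := by norm_num
    _ ≤ 2 ^ 2 ^ j := Nat.pow_le_pow_right (by norm_num) Nat.one_le_two_pow

lemma M_pos (j : ℕ) : 1 ≤ M j := by
  cases j with
  | zero => simp [M]
  | succ j => simp [M]

lemma two_M_le (j : ℕ) : 2 * M j ≤ 2 ^ 2 ^ j := by
  induction j with
  | zero => simp [M]
  | succ j ih =>
    have h2 := two_pow_ge j
    have e : 2 ^ 2 ^ (j + 1) = 2 ^ 2 ^ j * 2 ^ 2 ^ j := by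
      rw [← pow_add, pow_succ, mul_two]
    obtain ⟨u, hu⟩ : ∃ u, 2 ^ 2 ^ j = u + 1 := ⟨2 ^ 2 ^ j - 1, by omega⟩
    rw [e, M, hu]
    rw [hu] at ih h2
    have h3 : (u + 1 - 1) = u := by omega
    rw [h3]
    nlinarith

lemma M_succ_real (j : ℕ) : (M (j + 1) : ℝ) = (2 ^ 2 ^ j - 1) * M j + 1 := by
  have h2 := two_pow_ge j
  rw [M]
  push_cast [Nat.cast_sub (show 1 ≤ 2 ^ 2 ^ j by omega)]
  ring

/-- the fraction `M j / F j` -/
noncomputable def mu (j : ℕ) : ℝ := M j / F j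

lemma F_pos (j : ℕ) : (0 : ℝ) < F j := by
  have : 0 < F j := by unfold F; positivity
  exact_mod_cast this

lemma F_real (j : ℕ) : (F j : ℝ) = 2 ^ 2 ^ j + 1 := by
  unfold F; push_cast; ring

lemma pow_succ_sq (j : ℕ) : (2 : ℝ) ^ 2 ^ (j + 1) = 2 ^ 2 ^ j * 2 ^ 2 ^ j := by
  rw [← pow_add, pow_succ, mul_two]

lemma mu_pos (j : ℕ) : 0 < mu j := by
  unfold mu
  have := M_pos j
  have h : (0 : ℝ) < M j := by exact_mod_cast this
  exact div_pos h (F_pos j)

lemma two_mu_lt (j : ℕ) : 2 * mu j < 1 := by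
  unfold mu
  rw [← mul_div_assoc, div_lt_one (F_pos j), F_real]
  have h := two_M_le j
  have h' : (2 : ℝ) * M j ≤ 2 ^ 2 ^ j := by exact_mod_cast h
  linarith

/-- the gap between two consecutive fractions -/
lemma gap (j : ℕ) : ((2 : ℝ) ^ 2 ^ (j + 1) + 1) * (mu (j + 1) - mu j) = 1 - 2 * mu j := by
  have h1 := F_pos j
  have h2 := F_pos (j + 1)
  unfold mu
  rw [← F_real (j + 1)]
  field_simp
  rw [F_real (j + 1), F_real j, M_succ_real, pow_succ_sq]
  ring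

/-- `y` lies in `[mu j, 1 - mu j]` modulo one -/
def In (j : ℕ) (y : ℝ) : Prop := ∃ m : ℤ, mu j ≤ y - m ∧ y - m ≤ 1 - mu j

lemma In.neg {j : ℕ} {y : ℝ} (h : In j (-y)) : In j y := by
  obtain ⟨m, h1, h2⟩ := h
  refine ⟨-m - 1, ?_, ?_⟩ <;> push_cast <;> linarith

lemma In.add_int {j : ℕ} {y : ℝ} (k : ℤ) (h : In j (y + k)) : In j y := by
  obtain ⟨m, h1, h2⟩ := h
  refine ⟨m - k, ?_, ?_⟩ <;> push_cast <;> linarith

/-- multiplication by `2 ^ (2 ^ (j + 1))` fixes `mu j` modulo one -/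
lemma mul_mu (j : ℕ) : (2 : ℝ) ^ 2 ^ (j + 1) * mu j = mu j + (((2 ^ 2 ^ j - 1) * M j : ℤ) : ℝ) := by
  have h1 := F_pos j
  unfold mu
  push_cast
  field_simp
  rw [F_real, pow_succ_sq]
  ring

/-- one turn: if `y = mu j + e` modulo one with a small `e` and the orbit of `y` avoids the smaller
window, then `e` stays small -/
lemma turn (j : ℕ) (e : ℝ) (_he : 0 ≤ e) (he' : e < mu (j + 1) - mu j)
    (h : ¬ In (j + 1) ((2 : ℝ) ^ 2 ^ (j + 1) * (mu j + e))) :
    (2 : ℝ) ^ 2 ^ (j + 1) * e < mu (j + 1) - mu j := by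
  by_contra hcon
  push Not at hcon
  apply h
  have hg := gap j
  have hK : (0 : ℝ) < 2 ^ 2 ^ (j + 1) := by positivity
  have h3 : (2 : ℝ) ^ 2 ^ (j + 1) * e < 2 ^ 2 ^ (j + 1) * (mu (j + 1) - mu j) :=
    mul_lt_mul_of_pos_left he' hK
  refine ⟨((2 ^ 2 ^ j - 1) * M j : ℤ), ?_, ?_⟩
  · rw [mul_add, mul_mu]
    linarith
  · rw [mul_add, mul_mu]
    linarith

/-- an orbit that enters `[mu j, 1 - mu j]` and avoids `[mu (j+1), 1 - mu (j+1)]` meets
`± mu j` modulo one -/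
lemma meets_aux (j : ℕ) (y e : ℝ) (he : 0 ≤ e) (he' : e < mu (j + 1) - mu j) (m : ℤ)
    (hy : y = m + (mu j + e)) (h : ∀ i : ℕ, ¬ In (j + 1) (2 ^ i * y)) : e = 0 := by
  have key : ∀ r : ℕ, ((2 : ℝ) ^ 2 ^ (j + 1)) ^ r * e < mu (j + 1) - mu j ∧
      ∃ k : ℤ, (2 : ℝ) ^ (2 ^ (j + 1) * r) * y = k + (mu j + ((2 : ℝ) ^ 2 ^ (j + 1)) ^ r * e) := by
    intro r
    induction r with
    | zero => exact ⟨by simpa using he', m, by simpa using hy⟩
    | succ r ih =>
      obtain ⟨h1, k, h2⟩ := ih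
      have h0 : 0 ≤ ((2 : ℝ) ^ 2 ^ (j + 1)) ^ r * e := by positivity
      have e1 : (2 : ℝ) ^ (2 ^ (j + 1) * (r + 1)) * y =
          2 ^ 2 ^ (j + 1) * (mu j + ((2 : ℝ) ^ 2 ^ (j + 1)) ^ r * e) +
            (((2 : ℤ) ^ 2 ^ (j + 1) * k : ℤ) : ℝ) := by
        rw [mul_add (2 ^ (j + 1)) r 1, mul_one, pow_add, mul_comm ((2 : ℝ) ^ (2 ^ (j + 1) * r)),
          mul_assoc, h2]
        push_cast
        ring
      have h3 := turn j _ h0 h1 (fun hin => h (2 ^ (j + 1) * (r + 1)) (by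
        rw [e1]
        refine In.add_int (-((2 : ℤ) ^ 2 ^ (j + 1) * k)) ?_
        have : (2 : ℝ) ^ 2 ^ (j + 1) * (mu j + ((2 : ℝ) ^ 2 ^ (j + 1)) ^ r * e) +
            (((2 : ℤ) ^ 2 ^ (j + 1) * k : ℤ) : ℝ) + ((-((2 : ℤ) ^ 2 ^ (j + 1) * k) : ℤ) : ℝ) =
            (2 : ℝ) ^ 2 ^ (j + 1) * (mu j + ((2 : ℝ) ^ 2 ^ (j + 1)) ^ r * e) := by
          push_cast; ring
        rw [this]
        exact hin))
      refine ⟨?_, (2 : ℤ) ^ 2 ^ (j + 1) * k + (2 ^ 2 ^ j - 1) * M j, ?_⟩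
      · rw [pow_succ, mul_comm (((2 : ℝ) ^ 2 ^ (j + 1)) ^ r), mul_assoc]
        exact h3
      · rw [e1, mul_add ((2 : ℝ) ^ 2 ^ (j + 1)), mul_mu]
        push_cast
        ring
  by_contra hne
  have hpos : 0 < e := lt_of_le_of_ne he (Ne.symm hne)
  have hK : (1 : ℝ) < 2 ^ 2 ^ (j + 1) := one_lt_pow₀ (by norm_num) (by positivity)
  obtain ⟨r, hr⟩ := pow_unbounded_of_one_lt ((mu (j + 1) - mu j) / e) hK
  have h1 := (key r).1
  rw [div_lt_iff₀ hpos] at hr
  linarith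

lemma meets (j : ℕ) (y : ℝ) (hin : In j y) (h : ∀ i : ℕ, ¬ In (j + 1) (2 ^ i * y)) :
    ∃ m : ℤ, y = m + mu j ∨ y = m - mu j := by
  obtain ⟨m, h1, h2⟩ := hin
  have h0 : ¬ In (j + 1) y := by simpa using h 0
  by_cases hc : y - m < mu (j + 1)
  · have := meets_aux j y (y - m - mu j) (by linarith) (by linarith) m (by ring) h
    exact ⟨m, Or.inl (by linarith)⟩
  · have hc2 : 1 - mu (j + 1) < y - m := by
      by_contra hcon
      push Not at hcon hc
      exact h0 ⟨m, hc, hcon⟩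
    have := meets_aux j (-y) (1 - (y - m) - mu j) (by linarith) (by linarith) (-m - 1)
      (by push_cast; ring) (fun i hi => h i (by
        have e1 : (2 : ℝ) ^ i * -y = -(2 ^ i * y) := by ring
        rw [e1] at hi
        exact hi.neg))
    exact ⟨m + 1, Or.inr (by push_cast; linarith)⟩

lemma base (y : ℝ) (h : ∀ i : ℕ, ¬ In 0 (2 ^ i * y)) : ∃ m : ℤ, y = m := by
  have hmu : mu 0 = 1 / 3 := by norm_num [mu, M, F]
  refine ⟨round y, ?_⟩
  set u := y - round y with hu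
  have key : ∀ i : ℕ, |(2 : ℝ) ^ i * u| < 1 / 3 := by
    intro i
    induction i with
    | zero =>
      have h1 : |u| ≤ 1 / 2 := abs_sub_round y
      by_contra hcon
      push Not at hcon
      simp only [pow_zero, one_mul] at hcon
      rcases abs_cases u with ⟨h2, h3⟩ | ⟨h2, h3⟩
      · apply h 0
        refine ⟨round y, ?_, ?_⟩ <;> simp only [pow_zero, one_mul] <;> rw [hmu] <;> linarith
      · apply h 0
        refine ⟨round y - 1, ?_, ?_⟩ <;> simp only [pow_zero, one_mul] <;> rw [hmu] <;> push_cast <;>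
          linarith
    | succ i ih =>
      by_contra hcon
      push Not at hcon
      have e1 : (2 : ℝ) ^ (i + 1) * u = 2 * (2 ^ i * u) := by ring
      have e2 : (2 : ℝ) ^ (i + 1) * y = 2 * (2 ^ i * u) + (((2 : ℤ) ^ (i + 1) * round y : ℤ) : ℝ) := by
        rw [hu]; push_cast; ring
      rw [e1] at hcon
      rw [abs_lt] at ih
      rcases abs_cases (2 * ((2 : ℝ) ^ i * u)) with ⟨h2, h3⟩ | ⟨h2, h3⟩
      · apply h (i + 1)
        refine ⟨(2 : ℤ) ^ (i + 1) * round y, ?_, ?_⟩ <;> rw [e2, hmu] <;> linarith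
      · apply h (i + 1)
        refine ⟨(2 : ℤ) ^ (i + 1) * round y - 1, ?_, ?_⟩ <;> rw [e2, hmu] <;> push_cast <;> linarith
  have hu0 : u = 0 := by
    by_contra hne
    have hpos : 0 < |u| := abs_pos.2 hne
    obtain ⟨r, hr⟩ := pow_unbounded_of_one_lt ((1 / 3) / |u|) (show (1 : ℝ) < 2 by norm_num)
    have h1 := key r
    rw [abs_mul, abs_of_pos (by positivity : (0 : ℝ) < 2 ^ r)] at h1
    rw [div_lt_iff₀ hpos] at hr
    linarith
  linarith

/-- `F J * mu j` is not an integer for `j < J` -/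
lemma pow_mul_mu (j r : ℕ) : ∃ k : ℤ, ((2 : ℝ) ^ 2 ^ (j + 1)) ^ r * mu j = mu j + k := by
  induction r with
  | zero => exact ⟨0, by simp⟩
  | succ r ih =>
    obtain ⟨k, hk⟩ := ih
    refine ⟨(2 : ℤ) ^ 2 ^ (j + 1) * k + (2 ^ 2 ^ j - 1) * M j, ?_⟩
    rw [pow_succ, mul_comm (((2 : ℝ) ^ 2 ^ (j + 1)) ^ r), mul_assoc, hk, mul_add, mul_mu]
    push_cast
    ring

lemma not_int (j J : ℕ) (hj : j < J) (z : ℤ) : (F J : ℝ) * mu j ≠ z := by
  obtain ⟨k, hk⟩ := pow_mul_mu j (2 ^ (J - j - 1))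
  have e : ((2 : ℝ) ^ 2 ^ (j + 1)) ^ 2 ^ (J - j - 1) = 2 ^ 2 ^ J := by
    rw [← pow_mul, ← pow_add]
    congr 2
    omega
  rw [e] at hk
  intro hz
  rw [F_real, add_mul, hk] at hz
  have h1 : 2 * mu j = ((z - k : ℤ) : ℝ) := by push_cast; linarith
  have h2 := mu_pos j
  have h3 := two_mu_lt j
  rw [h1] at h3
  have h4 : (0 : ℝ) < ((z - k : ℤ) : ℝ) := by rw [← h1]; linarith
  have h5 : (0 : ℤ) < z - k := by exact_mod_cast h4
  have h6 : (z - k : ℤ) < 1 := by exact_mod_cast h3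
  omega

/-- **the orbit lemma, real form** -/
lemma orbit_real (J : ℕ) (x : ℝ) (hx : ∀ m : ℤ, x ≠ m) (z : ℤ) (hz : (F J : ℝ) * x = z) :
    ∃ i : ℕ, In J (2 ^ i * x) := by
  by_contra hcon
  push Not at hcon
  have key : ∀ d : ℕ, d ≤ J → ∀ i : ℕ, ¬ In (J - d) (2 ^ i * x) := by
    intro d
    induction d with
    | zero => intro _ i; simpa using hcon i
    | succ d ih =>
      intro hd i hin
      have h1 := ih (by omega)
      have e : J - d = (J - (d + 1)) + 1 := by omega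
      rw [e] at h1
      obtain ⟨m, hm⟩ := meets (J - (d + 1)) (2 ^ i * x) hin (fun i' => by
        have := h1 (i' + i)
        rwa [pow_add, mul_assoc] at this)
      have h2 : (F J : ℝ) * (2 ^ i * x) = ((2 ^ i * z : ℤ) : ℝ) := by
        push_cast; rw [← hz]; ring
      have hF : (F J : ℝ) = ((F J : ℤ) : ℝ) := by simp
      rcases hm with hm | hm
      · rw [hm] at h2
        apply not_int (J - (d + 1)) J (by omega) (2 ^ i * z - F J * m)
        push_cast at h2 ⊢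
        linarith
      · rw [hm] at h2
        apply not_int (J - (d + 1)) J (by omega) (F J * m - 2 ^ i * z)
        push_cast at h2 ⊢
        linarith
  have h0 := key J le_rfl
  rw [Nat.sub_self] at h0
  obtain ⟨m, hm⟩ := base x h0
  exact hx m hm

/-- **the orbit lemma**: for every integer `k` not divisible by `F J` some `2 ^ i * k` with
`i < 2 ^ J` has residue in `[M J, F J - M J]` -/
lemma orbit (J : ℕ) (k : ℤ) (hk : ¬ (F J : ℤ) ∣ k) :
    ∃ i : ℕ, i < 2 ^ J ∧ (M J : ℤ) ≤ (2 ^ i * k) % F J ∧ (2 ^ i * k) % F J ≤ F J - M J := by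
  have hF := F_pos J
  have hFz : (0 : ℤ) < F J := by exact_mod_cast hF
  obtain ⟨i, m, h1, h2⟩ := orbit_real J (k / F J) (by
    intro m hm
    apply hk
    rw [div_eq_iff hF.ne'] at hm
    refine ⟨m, ?_⟩
    have : (k : ℝ) = ((m * F J : ℤ) : ℝ) := by push_cast; exact hm
    have h := Int.cast_injective (α := ℝ) this
    rw [h, mul_comm]) k (by field_simp)
  -- integer form
  have h1' : (M J : ℤ) ≤ 2 ^ i * k - m * F J := by
    have : (M J : ℝ) ≤ 2 ^ i * k - m * F J := by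
      unfold mu at h1
      rw [div_le_iff₀ hF] at h1
      have e : (2 ^ i * ((k : ℝ) / F J) - m) * F J = 2 ^ i * k - m * F J := by field_simp
      linarith
    exact_mod_cast this
  have h2' : 2 ^ i * k - m * F J ≤ (F J : ℤ) - M J := by
    have : (2 : ℝ) ^ i * k - m * F J ≤ F J - M J := by
      unfold mu at h2
      have e : (2 ^ i * ((k : ℝ) / F J) - m) * F J = 2 ^ i * k - m * F J := by field_simp
      have h3 : (2 ^ i * ((k : ℝ) / F J) - m) * F J ≤ (1 - M J / F J) * F J :=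
        mul_le_mul_of_nonneg_right h2 hF.le
      have e2 : (1 - (M J : ℝ) / F J) * F J = F J - M J := by field_simp
      linarith
    exact_mod_cast this
  -- reduce the exponent
  have hMpos : (1 : ℤ) ≤ M J := by exact_mod_cast M_pos J
  have hneg : ((2 : ℤ) ^ 2 ^ J) ≡ -1 [ZMOD F J] := by
    rw [Int.modEq_iff_dvd]
    refine ⟨-1, ?_⟩
    unfold F
    push_cast
    ring
  have hpow : ∀ q : ℕ, ((2 : ℤ) ^ (2 ^ J * q)) ≡ (-1) ^ q [ZMOD F J] := by
    intro q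
    rw [pow_mul]
    exact hneg.pow q
  set n := 2 ^ J with hn
  have hdecomp : i = n * (i / n) + i % n := (Nat.div_add_mod i n).symm
  have hmod : 2 ^ i * k ≡ (-1) ^ (i / n) * (2 ^ (i % n) * k) [ZMOD F J] := by
    conv_lhs => rw [hdecomp, pow_add, mul_assoc]
    exact (hpow (i / n)).mul_right _
  refine ⟨i % n, Nat.mod_lt _ (by positivity), ?_⟩
  have e1 : (2 ^ i * k) % F J = 2 ^ i * k - m * F J := by
    rw [Int.emod_eq_iff hFz.ne']
    refine ⟨by omega, ?_, ?_⟩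
    · omega
    · exact ⟨-m, by ring⟩
  rcases neg_one_pow_eq_or ℤ (i / n) with h | h
  · rw [h, one_mul] at hmod
    have := hmod.eq
    rw [← this, e1]
    exact ⟨h1', h2'⟩
  · rw [h] at hmod
    have h3 : 2 ^ (i % n) * k ≡ -(2 ^ i * k) [ZMOD F J] := by
      have := hmod.neg.symm
      simpa using this
    have e2 : (2 ^ (i % n) * k) % F J = F J - (2 ^ i * k - m * F J) := by
      rw [h3.eq, Int.emod_eq_iff hFz.ne']
      refine ⟨by omega, ?_, ?_⟩
      · omega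
      · exact ⟨m + 1, by ring⟩
    rw [e2]
    constructor <;> omega

end Pool.Agent.H34.TM
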